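import Mathlib
import Pool.Agent.K.MP_ee8931_an.C0

theorem Pool.Agent.Results.MP_ee8931_an.NotC1.result (s : ℕ → ℝ) (hs : StrictAnti s)
    (hpos : ∀ r, 0 < s r) (_hsq : Summable fun r => s r ^ 2)
    (hD : ¬ Summable fun j => s (2 * j) * s (2 * j + 1) / (s (2 * j) - s (2 * j + 1))) :
    ¬ ∃ f : ℝ → ℂ, ContDiff ℝ 1 f ∧ Function.Periodic f (2 * Real.pi) ∧
      (∀ n : ℤ, n < 0 → fourierCoeffOn Real.two_pi_pos f n = 0) ∧
      ∀ z : ℂ, ‖z‖ < 1 → Filter.Tendsto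
        (fun N : ℕ => ∑ j, ∑ k, (Matrix.of fun j k : Fin N =>
          ((s (2 * j) : ℂ) - z * s (2 * k + 1)) /
            ((s (2 * j) : ℂ) ^ 2 - (s (2 * k + 1) : ℂ) ^ 2))⁻¹ j k)
        Filter.atTop (nhds (∑' n : ℕ, fourierCoeffOn Real.two_pi_pos f n * z ^ n)) :=
  fun ⟨f, hf, hp, hneg, hlim⟩ => Pool.Agent.P.MP_ee8931_an.main s hs hpos hD f hf hp hneg hlim
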